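import Mathlib

/-!
The differential operators `(X ^ 2 - 1) f'' + 2 a X f' + c f` and the structure of the products
`(A) (A - 1) ... (A - (n - 1))`.
-/

set_option autoImplicit false

namespace Pool.Agent.R489.LMS

open Polynomial

section Op

variable {R : Type*} [CommRing R]

/-- the operator `f ↦ (X ^ 2 - 1) f'' + 2 a X f' + c f` -/
noncomputable def Lop (a c : R) : R[X] →ₗ[R] R[X] where
  toFun f := (X ^ 2 - 1) * derivative (derivative f) + C (2 * a) * X * derivative f + C c * f
  map_add' f g := by simp only [derivative_add]; ring
  map_smul' r f := by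
    simp only [RingHom.id_apply, smul_eq_C_mul, derivative_C_mul]; ring

theorem Lop_apply (a c : R) (f : R[X]) : Lop a c f =
    (X ^ 2 - 1) * derivative (derivative f) + C (2 * a) * X * derivative f + C c * f := rfl

theorem der_Lop (a c : R) (f : R[X]) :
    derivative (Lop a c f) = Lop (a + 1) (c + 2 * a) (derivative f) := by
  simp only [Lop_apply, derivative_mul, derivative_sub, derivative_X_pow,
    derivative_one, derivative_C, derivative_X, map_add, map_mul, map_ofNat, map_one,
    Nat.cast_ofNat, derivative_ofNat]
  ring

theorem Lop_comm (a c d : R) (f : R[X]) : Lop a c (Lop a d f) = Lop a d (Lop a c f) := by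
  simp only [Lop_apply, derivative_add, derivative_mul, derivative_sub, derivative_X_pow,
    derivative_one, derivative_C, derivative_X, map_mul, map_ofNat]
  ring

theorem Lop_zero_mul (s : ℕ) (f : R[X]) :
    (X ^ 2 - 1) ^ s * Lop ((s : R) + 1) 0 f =
      derivative ((X ^ 2 - 1) ^ (s + 1) * derivative f) := by
  simp only [Lop_apply, derivative_mul, derivative_pow, derivative_sub,
    derivative_one, derivative_X, map_mul, map_add, map_natCast, map_ofNat, map_one, map_zero,
    Nat.add_sub_cancel, Nat.cast_add, Nat.cast_one, Nat.cast_ofNat]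
  ring

/-- iterated derivative of `Lop 1 c` -/
theorem iter_Lop (s : ℕ) (c : R) (f : R[X]) :
    derivative^[s] (Lop 1 c f) = Lop ((s : R) + 1) (c + s * (s + 1)) (derivative^[s] f) := by
  induction s with
  | zero => simp
  | succ s ih =>
    rw [Function.iterate_succ_apply', ih, der_Lop, Function.iterate_succ_apply']
    congr 2
    · push_cast; ring
    · push_cast; ring

/-- composition of the operators `Lop (s + 1) (s (s + 1) - j)`, `j` in a list -/
noncomputable def app (s : ℕ) : List ℕ → R[X] → R[X]
  | [], f => f
  | j :: J, f => Lop ((s : R) + 1) (s * (s + 1) - j) (app s J f)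

theorem app_append (s : ℕ) (J : List ℕ) (n : ℕ) (f : R[X]) :
    app s (J ++ [n]) f = app s J (Lop ((s : R) + 1) (s * (s + 1) - n) f) := by
  induction J with
  | nil => rfl
  | cons j J ih => simp only [List.cons_append, app, ih]

theorem app_comm (s : ℕ) (J : List ℕ) (d : R) (f : R[X]) :
    app s J (Lop ((s : R) + 1) d f) = Lop ((s : R) + 1) d (app s J f) := by
  induction J with
  | nil => rfl
  | cons j J ih => simp only [app, ih]; rw [Lop_comm]

theorem der_app (s : ℕ) (J : List ℕ) (f : R[X]) :
    derivative (app s J f) = app (s + 1) J (derivative f) := by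
  induction J with
  | nil => rfl
  | cons j J ih =>
    simp only [app, der_Lop, ih]
    congr 2
    · push_cast; ring
    · push_cast; ring

/-- the product `A (A - 1) ... (A - (n - 1))` with `A = Lop 1 0` -/
noncomputable def prodL : ℕ → R[X] →ₗ[R] R[X]
  | 0 => LinearMap.id
  | n + 1 => (prodL n).comp (Lop 1 (-(n : R)))

theorem structure_lemma (n : ℕ) : ∃ (s : ℕ) (J : List ℕ), n ≤ s * (s + 1) ∧
    (∀ j ∈ J, j < s * (s + 1)) ∧ ∀ f : R[X], prodL n f =
      derivative^[s] ((X ^ 2 - 1) ^ s * app s J (derivative^[s] f)) := by
  induction n with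
  | zero => exact ⟨0, [], by simp, by simp, fun f => by simp [prodL, app]⟩
  | succ n ih =>
    obtain ⟨s, J, hn, hJ, h⟩ := ih
    rcases Nat.lt_or_eq_of_le hn with hlt | heq
    · refine ⟨s, J ++ [n], hlt, ?_, ?_⟩
      · intro j hj
        rcases List.mem_append.1 hj with hj | hj
        · exact hJ j hj
        · rw [List.mem_singleton.1 hj]; exact hlt
      · intro f
        rw [prodL, LinearMap.comp_apply, h, app_append, iter_Lop]
        congr 5
        ring
    · refine ⟨s + 1, J, ?_, ?_, ?_⟩
      · rw [heq]; nlinarith
      · intro j hj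
        have := hJ j hj
        nlinarith
      · intro f
        rw [prodL, LinearMap.comp_apply, h, iter_Lop]
        have e : (-(n : R) + s * (s + 1)) = 0 := by
          rw [heq]; push_cast; ring
        rw [e, app_comm, Lop_zero_mul, der_app, ← Function.iterate_succ_apply' derivative,
          ← Function.iterate_succ_apply derivative]

theorem map_Lop {S : Type*} [CommRing S] (φ : R →+* S) (a c : R) (f : R[X]) :
    (Lop a c f).map φ = Lop (φ a) (φ c) (f.map φ) := by
  simp only [Lop_apply, Polynomial.map_add, Polynomial.map_mul, Polynomial.map_sub,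
    Polynomial.map_pow, map_X, Polynomial.map_one, map_C, derivative_map, map_mul, map_ofNat,
    Polynomial.map_ofNat]

theorem map_prodL {S : Type*} [CommRing S] (φ : R →+* S) (n : ℕ) (f : R[X]) :
    (prodL n f).map φ = prodL n (f.map φ) := by
  induction n generalizing f with
  | zero => rfl
  | succ n ih =>
    rw [prodL, LinearMap.comp_apply, ih, map_Lop, prodL, LinearMap.comp_apply]
    simp

theorem prodL_eig (n : ℕ) {P : R[X]} {l : R} (h : Lop 1 0 P = C l * P) :
    prodL n P = C (∏ j ∈ Finset.range n, (l - j)) * P := by
  induction n with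
  | zero => simp [prodL]
  | succ n ih =>
    have e : Lop 1 (-(n : R)) P = (l - n) • P := by
      have : Lop 1 (-(n : R)) P = Lop 1 0 P - C (n : R) * P := by
        simp only [Lop_apply, map_neg, map_zero]; ring
      rw [this, h, smul_eq_C_mul, map_sub]; ring
    rw [prodL, LinearMap.comp_apply, e, map_smul, ih, Finset.prod_range_succ, smul_eq_C_mul,
      map_mul]
    ring

end Op

end Pool.Agent.R489.LMS
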