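import Pool.Agent.R489.LMS.Op

/-!
The operators `Lop a c`, `0 < c ≤ a ^ 2`, preserve polynomials without zeros in the upper
half-plane.
-/

set_option autoImplicit false

namespace Pool.Agent.R489.LMS

open Polynomial

/-- no zeros in the open upper half-plane -/
def Stab (F : ℂ[X]) : Prop := ∀ z : ℂ, 0 < z.im → F.eval z ≠ 0

theorem Stab.ne_zero {F : ℂ[X]} (h : Stab F) : F ≠ 0 := by
  rintro rfl
  exact h Complex.I (by simp) (by simp)

theorem Stab.root {F : ℂ[X]} (h : Stab F) {w : ℂ} (hw : w ∈ F.roots) : w.im ≤ 0 := by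
  by_contra hc
  exact h w (not_le.1 hc) ((mem_roots h.ne_zero).1 hw)

theorem im_sum_neg (s : Multiset ℂ) (z : ℂ) (hs : s ≠ 0) (h : ∀ w ∈ s, w.im < z.im) :
    ((s.map fun w ↦ 1 / (z - w)).sum).im < 0 := by
  have key : ∀ w : ℂ, w.im < z.im → (1 / (z - w)).im < 0 := by
    intro w hw
    rw [one_div, Complex.inv_im]
    have h1 : 0 < (z - w).im := by rw [Complex.sub_im]; linarith
    have h2 : 0 < Complex.normSq (z - w) := Complex.normSq_pos.2 (by
      intro h0; rw [h0] at h1; simp at h1)
    rw [neg_div, neg_lt_zero]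
    positivity
  induction s using Multiset.induction_on with
  | empty => exact absurd rfl hs
  | cons w s ih =>
    rw [Multiset.map_cons, Multiset.sum_cons, Complex.add_im]
    have h1 := key w (h w (Multiset.mem_cons_self w s))
    by_cases h0 : s = 0
    · subst h0; simpa using h1
    · have h2 := ih h0 (fun v hv => h v (Multiset.mem_cons_of_mem hv))
      linarith

theorem im_sum_nonneg (s : Multiset ℂ) (z : ℂ) (h : ∀ w ∈ s, z.im ≤ w.im) :
    0 ≤ ((s.map fun w ↦ 1 / (z - w)).sum).im := by
  induction s using Multiset.induction_on with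
  | empty => simp
  | cons w s ih =>
    rw [Multiset.map_cons, Multiset.sum_cons, Complex.add_im]
    have h1 : 0 ≤ (1 / (z - w)).im := by
      rw [one_div, Complex.inv_im]
      apply div_nonneg
      · rw [Complex.sub_im]
        have := h w (Multiset.mem_cons_self w s)
        linarith
      · exact Complex.normSq_nonneg _
    have h2 := ih (fun v hv => h v (Multiset.mem_cons_of_mem hv))
    linarith

/-- zero or without zeros in the upper half-plane -/
def SZ (F : ℂ[X]) : Prop := F = 0 ∨ Stab F

theorem SZ.der {F : ℂ[X]} (h : SZ F) : SZ (derivative F) := by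
  rcases h with h | h
  · left; rw [h]; simp
  by_cases h0 : F.roots = 0
  · left
    have := (IsAlgClosed.splits F).natDegree_eq_card_roots
    rw [h0, Multiset.card_zero] at this
    rw [eq_C_of_natDegree_eq_zero this]; simp
  · right
    intro z hz h1
    have h2 := (IsAlgClosed.splits F).eval_derivative_div_eval_of_ne_zero (h z hz)
    rw [h1, zero_div] at h2
    have h3 := im_sum_neg F.roots z h0 (fun w hw => lt_of_le_of_lt (h.root hw) hz)
    rw [← h2] at h3
    simp at h3

theorem SZ.iter {F : ℂ[X]} (h : SZ F) (s : ℕ) : SZ (derivative^[s] F) := by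
  induction s with
  | zero => exact h
  | succ s ih => rw [Function.iterate_succ_apply']; exact ih.der

theorem SZ.mul_sq {F : ℂ[X]} (h : SZ F) (s : ℕ) : SZ ((X ^ 2 - 1) ^ s * F) := by
  rcases h with h | h
  · left; rw [h]; simp
  · right
    intro z hz
    rw [eval_mul]
    refine mul_ne_zero ?_ (h z hz)
    rw [eval_pow]
    apply pow_ne_zero
    simp only [eval_sub, eval_pow, eval_X, eval_one]
    intro h1
    have h2 : (z - 1) * (z + 1) = 0 := by linear_combination h1
    rcases mul_eq_zero.1 h2 with h3 | h3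
    · have : z = 1 := by linear_combination h3
      rw [this] at hz; simp at hz
    · have : z = -1 := by linear_combination h3
      rw [this] at hz; simp at hz

/-- the auxiliary polynomial in a second variable -/
noncomputable def Phi (a c : ℝ) (z : ℂ) (q : ℂ[X]) : ℂ[X] :=
  C ((Lop (a : ℂ) (c : ℂ) q).eval z) +
    C (2 * (z ^ 2 - 1) * (derivative q).eval z + 2 * a * z * q.eval z) * X +
    C ((z ^ 2 - 1) * q.eval z) * X ^ 2

theorem Phi_mul (a c : ℝ) (z r : ℂ) (q : ℂ[X]) :
    Phi a c z ((X - C r) * q) = derivative (Phi a c z q) + C (z - r) * Phi a c z q := by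
  apply Polynomial.funext
  intro y
  simp only [Phi, Lop_apply, derivative_mul, derivative_sub, derivative_X, derivative_C,
    derivative_add, eval_add, eval_mul, eval_sub, eval_pow, eval_C, eval_X, eval_one,
    derivative_X_pow, eval_zero, map_ofNat, eval_ofNat, Nat.cast_ofNat, derivative_one, map_mul,
    derivative_zero]
  ring

/-- the invariant: no zeros in the open lower half-plane, and `0` is no zero -/
def Inv (R : ℂ[X]) : Prop := R.eval 0 ≠ 0 ∧ ∀ y : ℂ, y.im < 0 → R.eval y ≠ 0

theorem Inv.step {R : ℂ[X]} (h : Inv R) {ζ : ℂ} (hζ : 0 < ζ.im) :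
    Inv (derivative R + C ζ * R) := by
  have hR : R ≠ 0 := by
    rintro rfl
    exact h.1 (by simp)
  have hroot : ∀ w ∈ R.roots, 0 ≤ w.im := by
    intro w hw
    by_contra hc
    exact h.2 w (not_le.1 hc) ((mem_roots hR).1 hw)
  have key : ∀ y : ℂ, y.im ≤ 0 → R.eval y ≠ 0 → (derivative R + C ζ * R).eval y ≠ 0 := by
    intro y hy hne h1
    have h2 := (IsAlgClosed.splits R).eval_derivative_div_eval_of_ne_zero hne
    have h3 := im_sum_nonneg R.roots y (fun w hw => hy.trans (hroot w hw))
    rw [← h2] at h3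
    rw [eval_add, eval_mul, eval_C] at h1
    have h4 : (derivative R).eval y / R.eval y = - ζ := by
      rw [div_eq_iff hne]
      linear_combination h1
    rw [h4, Complex.neg_im] at h3
    linarith
  exact ⟨key 0 (by simp) h.1, fun y hy => key y hy.le (h.2 y hy)⟩

theorem inv_start {a c : ℝ} (hc : 0 < c) (ha : 0 < a) (hca : c ≤ a ^ 2) {z : ℂ}
    (hz : 0 < z.im) : Inv (Phi a c z 1) := by
  have e : ∀ y, (Phi a c z 1).eval y = c + 2 * a * z * y + (z ^ 2 - 1) * y ^ 2 := by
    intro y
    simp only [Phi, Lop_apply, derivative_one, eval_add, eval_mul, eval_C, eval_X, eval_one,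
      eval_pow, eval_zero, derivative_zero, mul_zero, zero_add, mul_one]
  refine ⟨?_, ?_⟩
  · rw [e]
    simp only [mul_zero, add_zero]
    intro h
    have : c = 0 := by
      have h' : (c : ℂ) = 0 := by linear_combination h
      exact_mod_cast h'
    linarith
  · intro y hy h0
    rw [e] at h0
    obtain ⟨α, β⟩ := y
    obtain ⟨u, v⟩ := z
    simp only at hy hz
    -- `w = z y + a`, `w ^ 2 = y ^ 2 + a ^ 2 - c`
    have h1 := congrArg Complex.re h0
    have h2 := congrArg Complex.im h0
    simp only [Complex.add_re, Complex.add_im, Complex.mul_re, Complex.mul_im, Complex.sub_re,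
      Complex.sub_im, Complex.ofReal_re, Complex.ofReal_im, Complex.one_re, Complex.one_im,
      Complex.zero_re, Complex.zero_im, pow_two, Complex.re_ofNat, Complex.im_ofNat] at h1 h2
    set k : ℝ := a ^ 2 - c with hk
    have hk0 : 0 ≤ k := by linarith
    have hka : k < a ^ 2 := by linarith
    -- real and imaginary part of `w`
    set p : ℝ := (u * α - v * β) + a with hp
    set q : ℝ := u * β + v * α with hq
    have g1 : p ^ 2 - q ^ 2 = α ^ 2 - β ^ 2 + k := by
      rw [hp, hq, hk]; linear_combination h1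
    have g2 : p * q = α * β := by
      rw [hp, hq]; linear_combination h2 / 2
    -- `w * conj y`
    set P : ℝ := p * α + q * β with hP
    set Q : ℝ := q * α - p * β with hQ
    have n0 : 0 < α ^ 2 + β ^ 2 := by nlinarith [sq_nonneg α, mul_pos_of_neg_of_neg hy hy]
    have f1 : P ^ 2 - Q ^ 2 = (α ^ 2 + β ^ 2) ^ 2 + k * (α ^ 2 - β ^ 2) := by
      rw [hP, hQ]
      linear_combination (α ^ 2 - β ^ 2) * g1 + 4 * α * β * g2
    have f2 : P * Q = - (k * (α * β)) := by
      rw [hP, hQ]
      linear_combination (α ^ 2 - β ^ 2) * g2 - α * β * g1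
    have f3 : Q ^ 2 ≤ k * β ^ 2 := by
      by_contra hcon
      have hcon := not_le.1 hcon
      have hQ2 : 0 < Q ^ 2 := lt_of_le_of_lt (by positivity) hcon
      have f4 : P ^ 2 * Q ^ 2 = k ^ 2 * (α ^ 2 * β ^ 2) := by
        have : P ^ 2 * Q ^ 2 = (P * Q) ^ 2 := by ring
        rw [this, f2]; ring
      have f5 : P ^ 2 ≤ k * α ^ 2 := by
        by_contra hcon2
        have hcon2 := not_le.1 hcon2
        have : k * α ^ 2 * (k * β ^ 2) < P ^ 2 * Q ^ 2 :=
          mul_lt_mul'' hcon2 hcon (by positivity) (by positivity)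
        rw [f4] at this
        nlinarith
      nlinarith
    -- imaginary part of `z |y| ^ 2 = (w - a) conj y`
    have f6 : v * (α ^ 2 + β ^ 2) = Q + a * β := by
      rw [hQ, hq, hp]; ring
    have f7 : Q ^ 2 < (a * β) ^ 2 := by
      have : 0 < β * β := mul_pos_of_neg_of_neg hy hy
      nlinarith
    have f8 : Q < - (a * β) := by
      have h5 : 0 < - (a * β) := by nlinarith
      have h6 : Q ^ 2 < (-(a * β)) ^ 2 := by rw [neg_sq]; exact f7
      exact lt_of_pow_lt_pow_left₀ 2 h5.le h6
    have f9 : 0 < v * (α ^ 2 + β ^ 2) := mul_pos hz n0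
    linarith

theorem inv_prod {a c : ℝ} (hc : 0 < c) (ha : 0 < a) (hca : c ≤ a ^ 2) {z : ℂ}
    (hz : 0 < z.im) (s : Multiset ℂ) (hs : ∀ w ∈ s, w.im ≤ 0) :
    Inv (Phi a c z (s.map fun w => X - C w).prod) := by
  induction s using Multiset.induction_on with
  | empty => simpa using inv_start hc ha hca hz
  | cons w s ih =>
    rw [Multiset.map_cons, Multiset.prod_cons, Phi_mul]
    apply (ih (fun v hv => hs v (Multiset.mem_cons_of_mem hv))).step
    rw [Complex.sub_im]
    have := hs w (Multiset.mem_cons_self w s)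
    linarith

theorem Stab.Lop {F : ℂ[X]} (h : Stab F) {a c : ℝ} (hc : 0 < c) (ha : 0 < a)
    (hca : c ≤ a ^ 2) : Stab (Lop (a : ℂ) (c : ℂ) F) := by
  intro z hz h0
  have h1 := (inv_prod hc ha hca hz F.roots (fun w hw => h.root hw)).1
  have h2 := (IsAlgClosed.splits F).eq_prod_roots
  rw [h2, ← smul_eq_C_mul, map_smul, eval_smul, smul_eq_mul] at h0
  rcases mul_eq_zero.1 h0 with h3 | h3
  · exact h.ne_zero (leadingCoeff_eq_zero.1 h3)
  · apply h1
    simp only [Phi, eval_add, eval_C, eval_mul, eval_X, eval_pow, mul_zero, add_zero, ne_eq,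
      OfNat.ofNat_ne_zero, not_false_eq_true, zero_pow]
    exact h3

theorem SZ.app {F : ℂ[X]} (h : SZ F) (s : ℕ) (J : List ℕ) (hJ : ∀ j ∈ J, j < s * (s + 1)) :
    SZ (app s J F) := by
  induction J with
  | nil => exact h
  | cons j J ih =>
    have h1 := ih (fun i hi => hJ i (List.mem_cons_of_mem _ hi))
    have h2 := hJ j List.mem_cons_self
    have h2' : (j : ℝ) < s * (s + 1) := by exact_mod_cast h2
    simp only [LMS.app]
    rcases h1 with h1 | h1
    · left; rw [h1]; simp
    · right
      have e1 : ((s : ℂ) + 1) = (((s : ℝ) + 1 : ℝ) : ℂ) := by push_cast; ring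
      have e2 : ((s : ℂ) * (s + 1) - j) = (((s : ℝ) * (s + 1) - j : ℝ) : ℂ) := by
        push_cast; ring
      rw [e2, e1]
      refine h1.Lop (by linarith) (by positivity) ?_
      have : (0 : ℝ) ≤ j := Nat.cast_nonneg j
      have : (0 : ℝ) ≤ s := Nat.cast_nonneg s
      nlinarith

theorem SZ.prodL {F : ℂ[X]} (h : SZ F) (n : ℕ) : SZ (prodL n F) := by
  obtain ⟨s, J, _, hJ, e⟩ := structure_lemma (R := ℂ) n
  rw [e]
  exact (((h.iter s).app s J hJ).mul_sq s).iter s

end Pool.Agent.R489.LMS
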